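import Mathlib

/-!
# MP_1a91b9_nt (TwistDensity): the field with four elements
-/

set_option autoImplicit false

namespace Pool.Agent.Lib.MP_1a91b9_ntH

/-- The field with four elements: `⟨a, b⟩` is `a + b w` with `w² = w + 1`. -/
@[ext] structure F4 where
  a : ZMod 2
  b : ZMod 2
deriving DecidableEq

namespace F4

instance : Fintype F4 :=
  Fintype.ofEquiv (ZMod 2 × ZMod 2) ⟨fun x => ⟨x.1, x.2⟩, fun x => ⟨x.a, x.b⟩, fun _ => rfl, fun _ => rfl⟩

instance : Zero F4 := ⟨⟨0, 0⟩⟩
instance : One F4 := ⟨⟨1, 0⟩⟩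
instance : Add F4 := ⟨fun x y => ⟨x.a + y.a, x.b + y.b⟩⟩
instance : Neg F4 := ⟨fun x => x⟩
instance : Sub F4 := ⟨fun x y => ⟨x.a + y.a, x.b + y.b⟩⟩
instance : Mul F4 := ⟨fun x y => ⟨x.a * y.a + x.b * y.b, x.a * y.b + x.b * y.a + x.b * y.b⟩⟩
instance : Inv F4 := ⟨fun x => x * x⟩

theorem card_F4 : Fintype.card F4 = 4 := by decide

instance : CommRing F4 where
  add_assoc := by decide
  zero_add := by decide
  add_zero := by decide
  add_comm := by decide
  neg_add_cancel := by decide
  sub_eq_add_neg := by decide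
  mul_assoc := by decide
  one_mul := by decide
  mul_one := by decide
  left_distrib := by decide
  right_distrib := by decide
  zero_mul := by decide
  mul_zero := by decide
  mul_comm := by decide
  nsmul := nsmulRec
  zsmul := zsmulRec

instance : Field F4 where
  exists_pair_ne := ⟨0, 1, by decide⟩
  mul_inv_cancel := by decide
  inv_zero := by decide
  nnqsmul := _
  qsmul := _

instance : CharP F4 2 := by
  refine CharTwo.of_one_ne_zero_of_two_eq_zero ?_ ?_ <;> decide

/-- The element `w`. -/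
def w : F4 := ⟨0, 1⟩

/-- The trace to `ZMod 2`. -/
def tr (x : F4) : ZMod 2 := x.b

/-- The Frobenius `x ↦ x²`. -/
def cj (x : F4) : F4 := ⟨x.a + x.b, x.b⟩

/-- The inclusion of the prime field. -/
def of (x : ZMod 2) : F4 := ⟨x, 0⟩

end F4

end Pool.Agent.Lib.MP_1a91b9_ntH
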