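import Pool.Agent.Lib.MP_1a91b9_ntH.A.Top
import Pool.Agent.Lib.MP_1a91b9_ntH.C.Coc
import Pool.Agent.Lib.MP_1a91b9_ntH.C.Fin
import Pool.Agent.Lib.MP_1a91b9_ntH.C.SelD
import Pool.Agent.Lib.MP_1a91b9_ntH.D.DAlg
import Pool.Agent.Lib.MP_1a91b9_ntH.R.Density
import Pool.Agent.Lib.MP_1a91b9_ntH.R.OK

/-!
# MP_1a91b9_nt (TwistDensity): the assembly of Q1

The limit `c = ∏_{i ≥ 0} (1 + 2^{-(2 i + 1)})⁻¹` is larger than `0.5686`. If the determinant of the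
matrix of `S` is not zero, the L-value of `y² = x³ + δ_S³` is not zero and the group of points over `K`
is finite; the density theorem for the matrices gives the density of the twists.
-/

set_option autoImplicit false

namespace Pool.Agent.Lib.MP_1a91b9_ntH

open NumberField IsDedekindDomain Finset Pool.Agent.Lib.MP_1a91b9_ntT

/-- The constant in the form of the statement. -/
theorem cinf_form : ∏' i : ℕ, (1 + 1 / (2 : ℝ) ^ (2 * i + 1))⁻¹ = Da.cinf := by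
  rw [Da.cinf]
  refine tprod_congr fun i => ?_
  rw [one_div_pow]

theorem cinf_gt : (0.5686 : ℝ) < ∏' i : ℕ, (1 + 1 / (2 : ℝ) ^ (2 * i + 1))⁻¹ := by
  rw [cinf_form, Da.cinf_eq]
  have h1 := Da.fs_iter 7
  have h2 := Da.fs_near (z := -1 / 2 * (1 / 4) ^ 7) (by norm_num [abs_of_neg])
  rw [← h1] at h2
  have h3 := (abs_le.1 h2).1
  have h4 : |(-1 / 2 * (1 / 4) ^ 7 : ℝ)| = 1 / 2 * (1 / 4) ^ 7 := by
    rw [abs_of_neg (by norm_num)]
    norm_num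
  rw [h4] at h3
  simp only [prod_range_succ, prod_range_zero] at h3
  norm_num at h3
  linarith

/-- The group of points of `y² = x³ + δ_S³` over `K` is finite if the determinant is not zero. -/
theorem finite_Wd (S : Finset Pq) (h : (qd.M S).det ≠ 0) : Finite (Wd S).toAffine.Point := by
  classical
  have hd : ((dl S : 𝓞 K) : K) ≠ 0 := fun h0 =>
    (dl_squarefree S).ne_zero (RingOfIntegers.ext h0)
  exact C.fin_of_half (W := (Wd S).toAffine) hd rfl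
    (C.desc_pts hd om_quad (C.Sel.sel_class S h) rfl)

private theorem q1_K (S : Finset Pq) (h : (qd.M S).det ≠ 0) :
    ∀ W : WeierstrassCurve K, W = ⟨0, 0, 0, 0, ((dl S : 𝓞 K) : K) ^ 3⟩ →
      (∃ g : ℂ → ℂ, Differentiable ℂ g ∧ (∀ s : ℂ, 3 / 2 < s.re → g s = W.LSeries s) ∧
        g 1 ≠ 0) ∧ Finite W.toAffine.Point := by
  rintro W rfl
  exact ⟨lvalue_main S h, finite_Wd S h⟩

/-- The density of the twists with a property which holds for all `S` with nonzero determinant. -/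
theorem density_K (Pr : 𝓞 K → Prop) (hPr : ∀ S : Finset Pq, (qd.M S).det ≠ 0 → Pr (dl S))
    (ε : ℝ) (hε : 0 < ε) :
    ∀ᶠ X : ℝ in Filter.atTop, (∏' i : ℕ, (1 + 1 / (2 : ℝ) ^ (2 * i + 1))⁻¹) - ε ≤
      (Nat.card {δ : 𝓞 K // Squarefree δ ∧ 4 ∣ δ - 1 ∧ |Algebra.norm ℤ δ| ≤ X ∧ Pr δ} : ℝ) /
        (Nat.card {δ : 𝓞 K // Squarefree δ ∧ 4 ∣ δ - 1 ∧ |Algebra.norm ℤ δ| ≤ X} : ℝ) := by
  rw [cinf_form]
  refine density_ratio (Da.cinf - ε / 2) (Da.cinf - ε) (by linarith) (fun c η hη => ?_) Pr hPr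
  obtain ⟨X₀, h⟩ := Da.density_cinf qd_OK (show Da.cinf - ε / 2 < Da.cinf by linarith) η hη
  exact ⟨X₀, fun X hX => h X hX c⟩

theorem main_q1 (ε : ℝ) (hε : 0 < ε) : ∀ᶠ X : ℝ in Filter.atTop,
    (∏' i : ℕ, (1 + 1 / (2 : ℝ) ^ (2 * i + 1))⁻¹) - ε ≤
      (Nat.card {δ : 𝓞 (CyclotomicField 3 ℚ) // Squarefree δ ∧ 4 ∣ δ - 1 ∧
        |Algebra.norm ℤ δ| ≤ X ∧
        ∀ W : WeierstrassCurve (CyclotomicField 3 ℚ), W = ⟨0, 0, 0, 0, (δ : CyclotomicField 3 ℚ) ^ 3⟩ →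
          (∃ g : ℂ → ℂ, Differentiable ℂ g ∧ (∀ s : ℂ, 3 / 2 < s.re → g s = W.LSeries s) ∧
            g 1 ≠ 0) ∧ Finite W.toAffine.Point} : ℝ) /
      (Nat.card {δ : 𝓞 (CyclotomicField 3 ℚ) // Squarefree δ ∧ 4 ∣ δ - 1 ∧
        |Algebra.norm ℤ δ| ≤ X} : ℝ) :=
  density_K (fun δ : 𝓞 K => ∀ W : WeierstrassCurve K, W = ⟨0, 0, 0, 0, ((δ : 𝓞 K) : K) ^ 3⟩ →
      (∃ g : ℂ → ℂ, Differentiable ℂ g ∧ (∀ s : ℂ, 3 / 2 < s.re → g s = W.LSeries s) ∧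
        g 1 ≠ 0) ∧ Finite W.toAffine.Point) q1_K ε hε

end Pool.Agent.Lib.MP_1a91b9_ntH
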